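import Mathlib

set_option autoImplicit false

namespace Pool.Agent.Results.MP_aa870c_nt.Counter

/-- All hypotheses of Q1 hold for `a b c p q r`, and yet the permuted equation has a solution
in positive integers. -/
def IsCounter (a b c p q r : ℕ) : Prop :=
  1 < a ∧ 1 < b ∧ 1 < c ∧ Nat.gcd a (Nat.gcd b c) = 1 ∧ 1 < p ∧ 1 < q ∧ 1 < r ∧
  a ^ p + b ^ q = c ^ r ∧ a < b ∧ (a, b, c) ≠ (2, 7, 3) ∧
  (∀ k : ℕ, 1 ≤ k → (a, b, c) ≠ (2, 2 ^ k - 1, 2 ^ k + 1)) ∧
  ¬ (q = 2 ∧ r = 2 ∧ c = b + 1) ∧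
  ∃ X Y Z : ℕ, 0 < X ∧ 0 < Y ∧ 0 < Z ∧ c ^ X + b ^ Y = a ^ Z

lemma pell (N : ℕ) : ∃ a c : ℕ, N < a ∧ 7 ≤ a ∧ 5 ≤ c ∧ a ^ 2 + 1 = 2 * c ^ 2 := by
  induction N with
  | zero => exact ⟨7, 5, by norm_num, le_rfl, le_rfl, by norm_num⟩
  | succ n ih =>
    obtain ⟨a, c, h1, h2, h3, h4⟩ := ih
    exact ⟨3 * a + 4 * c, 2 * a + 3 * c, by omega, by omega, by omega, by nlinarith⟩

/-- Q1 fails: two sporadic counterexamples, and counterexamples with `a` arbitrarily large. -/
theorem result :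
    IsCounter 2 11 5 2 2 3 ∧ IsCounter 3 11 122 5 4 2 ∧
      ∀ N : ℕ, ∃ a b c p q r : ℕ, N < a ∧ IsCounter a b c p q r := by
  refine ⟨⟨by norm_num, by norm_num, by norm_num, by norm_num, by norm_num, by norm_num,
    by norm_num, by norm_num, by norm_num, by simp, ?_, by norm_num,
    1, 1, 4, by norm_num, by norm_num, by norm_num, by norm_num⟩,
    ⟨by norm_num, by norm_num, by norm_num, by norm_num, by norm_num, by norm_num,
    by norm_num, by norm_num, by norm_num, by simp, ?_, by norm_num,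
    1, 2, 5, by norm_num, by norm_num, by norm_num, by norm_num⟩, fun N => ?_⟩
  · intro k _ h
    simp only [Prod.mk.injEq] at h
    omega
  · intro k _ h
    simp only [Prod.mk.injEq] at h
    omega
  · obtain ⟨a, c, h1, h2, h3, h4⟩ := pell N
    obtain ⟨b, hb⟩ : ∃ b, c ^ 2 = b + 1 := 
      ⟨c ^ 2 - 1, (Nat.sub_add_cancel (Nat.one_le_pow _ _ (by omega))).symm⟩
    have hab : a < b := by nlinarith
    refine ⟨a, b, c, 2, 2, 4, h1, by omega, by omega, by omega, ?_, by norm_num, by norm_num,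
      by norm_num, ?_, hab, ?_, ?_, by norm_num, 2, 1, 2, by norm_num, by norm_num, by norm_num,
      by rw [pow_one]; omega⟩
    · have : Nat.gcd b c = 1 := by
        have h : Nat.Coprime b (c ^ 2) := by rw [hb]; simp
        exact Nat.Coprime.of_dvd_right (dvd_pow_self c two_ne_zero) h
      rw [this, Nat.gcd_one_right]
    · have : c ^ 4 = (b + 1) ^ 2 := by rw [← hb]; ring
      nlinarith
    · intro h
      simp only [Prod.mk.injEq] at h
      omega
    · intro k _ h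
      simp only [Prod.mk.injEq] at h
      omega

end Pool.Agent.Results.MP_aa870c_nt.Counter
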